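import Mathlib
import Pool.Agent.Helper278.DefsG
import Pool.Agent.Helper278.CEStmt
import Pool.Agent.Helper159.ET.Defs
import Pool.Agent.Helper159.ET.Defs3
import Pool.Agent.Helper159.ET.Main

set_option autoImplicit false

open scoped InnerProductSpace

namespace Pool.Agent.Results.MP_02fda4_an.HaagerupInT

open Pool.Agent.Helper278 Pool.Agent.Helper159.ET

/-- For every nonprincipal ultrafilter `U` on `ℕ` there are a II₁ factor `N` with the Haagerup
property, a tracial von Neumann algebra `M` with property (T) and an existential embedding `ι`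
of `N` in `M`. -/
theorem result (U : Ultrafilter ℕ) (hU : ∀ n, {n} ∉ U) :
    ∃ (N M : VNA) (ι : Alg N →⋆ₐ[ℂ] Alg M), IsIIOneFactor N.N N.τ ∧ Haagerup N ∧
      IsTracialVN M.N M.τ ∧ IsExistential U (tr N) (tr M) ι ∧ PropT M := by
  obtain ⟨H, _, _, _, N, τ, K, _, _, _, M, σ, ι, h1, h2, h3, h4, h5⟩ := main U hU
  exact ⟨⟨H, N, τ⟩, ⟨K, M, σ⟩, ι, h1, haagerup_of τ h2, h3, h4, propT_of_hasT σ h5⟩

end Pool.Agent.Results.MP_02fda4_an.HaagerupInT
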